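import Pool.Agent.H741.RS.Stm

/-!
# Project RS: division by `1 - ⟨z, w⟩` (`S_DIVI`)
-/

set_option autoImplicit false
open scoped ComplexConjugate
open MvPolynomial

namespace Pool.Agent.H578.RSD

open Pool.Agent.H741.RS

/-! ### Evaluation -/

section

variable {n : ℕ}

theorem ev_sum {ι : Type} (s : Finset ι) (P : ι → MvPolynomial (Fin n) ℂ) (z : V n) :
    ev (∑ i ∈ s, P i) z = ∑ i ∈ s, ev (P i) z := by
  simp [ev]

theorem ev_Cmul (c : ℂ) (P : MvPolynomial (Fin n) ℂ) (z : V n) : ev (C c * P) z = c * ev P z := by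
  simp [ev]

theorem ev_ext {P Q : MvPolynomial (Fin n) ℂ} (h : ∀ z : V n, ev P z = ev Q z) : P = Q := by
  refine MvPolynomial.funext fun x => ?_
  have := h (WithLp.toLp 2 x)
  simpa [ev] using this

theorem sum_hc (P : MvPolynomial (Fin n) ℂ) (d : ℕ) (h : P.totalDegree ≤ d) :
    ∑ l ∈ Finset.range (d + 1), homogeneousComponent l P = P := by
  conv_rhs => rw [← sum_homogeneousComponent P]
  symm
  refine Finset.sum_subset ?_ ?_
  · intro x hx
    rw [Finset.mem_range] at hx ⊢
    omega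
  · intro x _ hx
    rw [Finset.mem_range] at hx
    exact homogeneousComponent_eq_zero _ _ (by omega)

theorem hc_deg (P : MvPolynomial (Fin n) ℂ) (l : ℕ) : (homogeneousComponent l P).totalDegree ≤ l :=
  (homogeneousComponent_isHomogeneous l P).totalDegree_le

theorem ev_hom {P : MvPolynomial (Fin n) ℂ} {l : ℕ} (hP : P.IsHomogeneous l) (c : ℂ) (z : V n) :
    ev P (c • z) = c ^ l * ev P z := by
  unfold ev
  rw [eval_eq', eval_eq', Finset.mul_sum]
  refine Finset.sum_congr rfl fun d hd => ?_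
  have h1 : ∑ i, d i = l := by
    have := hP (mem_support_iff.1 hd)
    rw [Finsupp.weight_apply, Finsupp.sum_fintype _ _ (by simp)] at this
    simpa using this
  have h2 : ∏ i, ((c • z) i) ^ d i = c ^ l * ∏ i, (z i) ^ d i := by
    rw [← h1, ← Finset.prod_pow_eq_pow_sum, ← Finset.prod_mul_distrib]
    refine Finset.prod_congr rfl fun i _ => ?_
    rw [← mul_pow]
    rfl
  rw [h2]
  ring

theorem ev_hc (P : MvPolynomial (Fin n) ℂ) (l : ℕ) (c : ℂ) (z : V n) :
    ev (homogeneousComponent l P) (c • z) = c ^ l * ev (homogeneousComponent l P) z :=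
  ev_hom (homogeneousComponent_isHomogeneous l P) c z

theorem ev_expand (P : MvPolynomial (Fin n) ℂ) (d : ℕ) (h : P.totalDegree ≤ d) (c : ℂ) (z : V n) :
    ev P (c • z) = ∑ k ∈ Finset.range (d + 1), c ^ k * ev (homogeneousComponent k P) z := by
  conv_lhs => rw [← sum_hc P d h]
  rw [ev_sum]
  exact Finset.sum_congr rfl fun k _ => ev_hc P k c z

/-! ### Polarisation -/

/-- A kernel which vanishes on the diagonal vanishes. -/
theorem polar {k l : ℕ} {u : V n → V n → ℂ} (hu : Ker k l u) (h0 : ∀ z, u z z = 0) :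
    ∀ z w, u z w = 0 := by
  obtain ⟨m, a, b, -, hu⟩ := hu
  let θ₁ : MvPolynomial (Fin n) ℂ →ₐ[ℂ] MvPolynomial (Fin n ⊕ Fin n) ℂ :=
    aeval fun i => X (Sum.inl i) + C Complex.I * X (Sum.inr i)
  let θ₂ : MvPolynomial (Fin n) ℂ →ₐ[ℂ] MvPolynomial (Fin n ⊕ Fin n) ℂ :=
    aeval fun i => X (Sum.inl i) - C Complex.I * X (Sum.inr i)
  have e1 : ∀ (P : MvPolynomial (Fin n) ℂ) (v : Fin n ⊕ Fin n → ℂ), eval v (θ₁ P) =
      eval (fun i => v (Sum.inl i) + Complex.I * v (Sum.inr i)) P := by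
    intro P v
    induction P using MvPolynomial.induction_on with
    | C c => simp [θ₁]
    | add p q hp hq => simp [hp, hq]
    | mul_X p i hp =>
      rw [map_mul, map_mul, map_mul, hp]
      congr 1
      simp [θ₁]
  have e2 : ∀ (P : MvPolynomial (Fin n) ℂ) (v : Fin n ⊕ Fin n → ℂ), eval v (θ₂ P) =
      eval (fun i => v (Sum.inl i) - Complex.I * v (Sum.inr i)) P := by
    intro P v
    induction P using MvPolynomial.induction_on with
    | C c => simp [θ₂]
    | add p q hp hq => simp [hp, hq]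
    | mul_X p i hp =>
      rw [map_mul, map_mul, map_mul, hp]
      congr 1
      simp [θ₂]
  have e3 : ∀ (P : MvPolynomial (Fin n) ℂ) (v : Fin n → ℂ),
      eval (fun i => conj (v i)) (map (starRingEnd ℂ) P) = conj (eval v P) := by
    intro P v
    induction P using MvPolynomial.induction_on with
    | C c => simp
    | add p q hp hq => simp [hp, hq]
    | mul_X p i hp => simp [hp]
  let Q : MvPolynomial (Fin n ⊕ Fin n) ℂ := ∑ i, θ₁ (a i) * θ₂ (map (starRingEnd ℂ) (b i))
  have hQ : Q = 0 := by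
    refine funext_set (fun _ => Set.range (fun r : ℝ => (r : ℂ)))
      (fun _ => Set.infinite_range_of_injective Complex.ofReal_injective) fun v hv => ?_
    have hv' : ∀ i, conj (v i) = v i := by
      intro i
      obtain ⟨r, hr⟩ := hv i (Set.mem_univ i)
      rw [← hr]
      exact Complex.conj_ofReal r
    have h := h0 (WithLp.toLp 2 fun i => v (Sum.inl i) + Complex.I * v (Sum.inr i))
    rw [hu] at h
    simp only [Q, map_sum, map_mul, map_zero, e1, e2]
    rw [← h]
    refine Finset.sum_congr rfl fun i _ => ?_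
    unfold ev
    rw [← e3]
    congr 2
    · congr 1
      funext j
      simp [hv']
      ring
  intro z w
  rw [hu]
  have h := congrArg (eval (Sum.elim (fun i => (z i + conj (w i)) / 2)
    (fun i => (z i - conj (w i)) / (2 * Complex.I)))) hQ
  simp only [Q, map_sum, map_mul, map_zero, e1, e2, Sum.elim_inl, Sum.elim_inr] at h
  rw [← h]
  refine Finset.sum_congr rfl fun i _ => ?_
  unfold ev
  rw [← e3]
  have hI := Complex.I_ne_zero
  congr 2
  · congr 1
    funext j
    field_simp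
    ring
  · congr 1
    funext j
    field_simp
    ring

/-! ### Closure properties -/

theorem ker_zero (k l : ℕ) : Ker k l (fun _ _ : V n => (0 : ℂ)) :=
  ⟨0, fun i => i.elim0, fun i => i.elim0, fun i => i.elim0, fun z w => by simp⟩

theorem ker_sum (h1 : S_KCL) {ι : Type} (s : Finset ι) (u : ι → V n → V n → ℂ) (k l : ℕ)
    (h : ∀ i ∈ s, Ker k l (u i)) : Ker k l (fun z w => ∑ i ∈ s, u i z w) := by
  classical
  induction s using Finset.induction_on with
  | empty => simpa using ker_zero (n := n) k l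
  | insert i s hi ih =>
    have := (h1 n k l).1 _ _ (h i (Finset.mem_insert_self i s))
      (ih fun j hj => h j (Finset.mem_insert_of_mem hj)) 1
    simpa [Finset.sum_insert hi] using this

theorem ker_one : Ker 0 0 (fun _ _ : V n => (1 : ℂ)) :=
  ⟨1, fun _ => 1, fun _ => 1, fun i => by simp, fun z w => by simp [ev]⟩

theorem ker_hp (h1 : S_KCL) : Ker 1 1 (fun z w : V n => hp z w) := by
  simpa using (h1 n 1 1).2.2.2.2.1 (ContinuousLinearMap.id ℂ (V n))

theorem ker_hpow (h1 : S_KCL) (m : ℕ) : Ker m m (fun z w : V n => hp z w ^ m) := by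
  induction m with
  | zero => simpa using ker_one (n := n)
  | succ m ih =>
    have := (h1 n m m).2.2.2.1 _ _ 1 1 ih (ker_hp h1)
    simpa [pow_succ] using this

theorem ker_conj {k l : ℕ} {u : V n → V n → ℂ} (hu : Ker k l u) :
    Ker l k (fun z w => conj (u w z)) := by
  obtain ⟨m, a, b, hab, hu⟩ := hu
  refine ⟨m, b, a, fun i => ⟨(hab i).2, (hab i).1⟩, fun z w => ?_⟩
  show conj (u w z) = _
  rw [hu, map_sum]
  refine Finset.sum_congr rfl fun i _ => ?_
  rw [map_mul, Complex.conj_conj]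
  ring

/-! ### The parts of a kernel -/

section parts

variable {m : ℕ} (a b : Fin m → MvPolynomial (Fin n) ℂ)

/-- the part of degree `l` in the second variable -/
noncomputable def G (l : ℕ) (z w : V n) : ℂ :=
  ∑ i, ev (a i) z * conj (ev (homogeneousComponent l (b i)) w)

theorem ker_G (d l : ℕ) (ha : ∀ i, (a i).totalDegree ≤ d) : Ker d l (G a b l) :=
  ⟨m, a, fun i => homogeneousComponent l (b i), fun i => ⟨ha i, hc_deg _ _⟩, fun _ _ => rfl⟩

theorem sum_G (d : ℕ) (hb : ∀ i, (b i).totalDegree ≤ d) (z w : V n) :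
    ∑ l ∈ Finset.range (d + 1), G a b l z w = ∑ i, ev (a i) z * conj (ev (b i) w) := by
  unfold G
  rw [Finset.sum_comm]
  refine Finset.sum_congr rfl fun i _ => ?_
  rw [← Finset.mul_sum, ← map_sum, ← ev_sum, sum_hc _ _ (hb i)]

theorem G_smul (d l : ℕ) (ha : ∀ i, (a i).totalDegree ≤ d) (c : ℂ) (e : V n) :
    G a b l (c • e) (c • e) = ∑ k ∈ Finset.range (d + 1), c ^ k * conj c ^ l *
      ∑ i, ev (homogeneousComponent k (a i)) e * conj (ev (homogeneousComponent l (b i)) e) := by
  unfold G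
  simp only [Finset.mul_sum]
  rw [Finset.sum_comm]
  refine Finset.sum_congr rfl fun i _ => ?_
  rw [ev_expand _ d (ha i), ev_hc, Finset.sum_mul]
  refine Finset.sum_congr rfl fun k _ => ?_
  rw [map_mul, map_pow]
  ring

theorem circle_inf : {s : ℂ | ‖s‖ = 1}.Infinite := by
  have h := isPreconnected_sphere (E := ℂ) (by rw [Complex.rank_real_complex]; norm_num) 0 1
  have h2 : (Metric.sphere (0 : ℂ) 1).Infinite :=
    h.infinite_of_nontrivial ⟨1, by simp, -1, by simp, by norm_num⟩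
  refine h2.mono ?_
  intro s hs
  simpa using hs

theorem exists_unit (hn : 1 ≤ n) (x : V n) : ∃ (r : ℝ) (e : V n), ‖e‖ = 1 ∧ x = (r : ℂ) • e := by
  by_cases hx : x = 0
  · refine ⟨0, EuclideanSpace.single ⟨0, hn⟩ 1, by simp, by simp [hx]⟩
  · have h0 : ‖x‖ ≠ 0 := norm_ne_zero_iff.2 hx
    refine ⟨‖x‖, ((‖x‖ : ℂ)⁻¹) • x, ?_, ?_⟩
    · rw [norm_smul, norm_inv, Complex.norm_real, norm_norm, inv_mul_cancel₀ h0]
    · rw [smul_smul, mul_inv_cancel₀ (by exact_mod_cast h0), one_smul]

theorem diag_zero (d : ℕ) (ha : ∀ i, (a i).totalDegree ≤ d) (hb : ∀ i, (b i).totalDegree ≤ d)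
    (hs : ∀ z : V n, ‖z‖ = 1 → ∑ i, ev (a i) z * conj (ev (b i) z) = 0) (hn : 1 ≤ n) (x : V n) :
    ∑ l ∈ Finset.range (d + 1), G a b l x x * hp x x ^ (d - l) = 0 := by
  obtain ⟨r, e, he, rfl⟩ := exists_unit hn x
  obtain ⟨M, hM⟩ : ∃ M : ℕ → ℕ → ℂ, ∀ k l, M k l = ∑ i, ev (homogeneousComponent k (a i)) e *
      conj (ev (homogeneousComponent l (b i)) e) := ⟨_, fun _ _ => rfl⟩
  have hG : ∀ (l : ℕ) (c : ℂ), G a b l (c • e) (c • e) =
      ∑ k ∈ Finset.range (d + 1), c ^ k * conj c ^ l * M k l := by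
    intro l c
    rw [G_smul a b d l ha]
    simp only [hM]
  let p : Polynomial ℂ := ∑ l ∈ Finset.range (d + 1), ∑ k ∈ Finset.range (d + 1),
    Polynomial.C (M k l) * Polynomial.X ^ (k + (d - l))
  have hp1 : ∀ s, p.eval s = ∑ l ∈ Finset.range (d + 1), ∑ k ∈ Finset.range (d + 1),
      M k l * s ^ (k + (d - l)) := by
    intro s
    simp [p, Polynomial.eval_finsetSum]
  have hp0 : p = 0 := by
    refine Polynomial.eq_zero_of_infinite_isRoot p (circle_inf.mono fun s hs1 => ?_)
    have hs1' : ‖s‖ = 1 := hs1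
    have hss : s * conj s = 1 := by
      rw [Complex.mul_conj, Complex.normSq_eq_norm_sq, hs1']
      norm_num
    have h1 := hs (s • e) (by rw [norm_smul, hs1', he, one_mul])
    rw [← sum_G a b d hb] at h1
    have h2 : p.eval s = s ^ d * ∑ l ∈ Finset.range (d + 1), G a b l (s • e) (s • e) := by
      rw [hp1, Finset.mul_sum]
      refine Finset.sum_congr rfl fun l hl => ?_
      rw [hG, Finset.mul_sum]
      refine Finset.sum_congr rfl fun k _ => ?_
      have hl' : l ≤ d := by
        rw [Finset.mem_range] at hl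
        omega
      have h3 : s ^ d * conj s ^ l = s ^ (d - l) := by
        conv_lhs => rw [← Nat.sub_add_cancel hl', pow_add, mul_assoc, ← mul_pow, hss, one_pow]
        rw [mul_one]
      calc M k l * s ^ (k + (d - l)) = s ^ k * (s ^ (d - l)) * M k l := by rw [pow_add]; ring
        _ = s ^ d * (s ^ k * conj s ^ l * M k l) := by rw [← h3]; ring
    show p.IsRoot s
    rw [Polynomial.IsRoot.def, h2, h1, mul_zero]
  have hhp : hp ((r : ℂ) • e) ((r : ℂ) • e) = (r : ℂ) * r := by
    unfold hp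
    rw [inner_smul_left, inner_smul_right, inner_self_eq_norm_sq_to_K, he, Complex.conj_ofReal]
    simp
  have h4 : ∑ l ∈ Finset.range (d + 1), G a b l ((r : ℂ) • e) ((r : ℂ) • e) *
      hp ((r : ℂ) • e) ((r : ℂ) • e) ^ (d - l) = (r : ℂ) ^ d * p.eval (r : ℂ) := by
    rw [hp1, Finset.mul_sum]
    refine Finset.sum_congr rfl fun l hl => ?_
    rw [hG, hhp, Finset.sum_mul, Finset.mul_sum]
    refine Finset.sum_congr rfl fun k _ => ?_
    have hl' : l ≤ d := by
      rw [Finset.mem_range] at hl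
      omega
    rw [Complex.conj_ofReal]
    have h5 : (r : ℂ) ^ d = (r : ℂ) ^ l * (r : ℂ) ^ (d - l) := by
      rw [← pow_add]
      congr 1
      omega
    rw [h5, mul_pow, pow_add]
    ring
  rw [h4, hp0]
  simp

theorem division (h1 : S_KCL) (d : ℕ) (ha : ∀ i, (a i).totalDegree ≤ d)
    (hb : ∀ i, (b i).totalDegree ≤ d)
    (hs : ∀ z : V n, ‖z‖ = 1 → ∑ i, ev (a i) z * conj (ev (b i) z) = 0) (hn : 1 ≤ n) :
    ∃ u : V n → V n → ℂ, Ker (d + d) (d - 1) u ∧ (d = 0 → ∀ z w, u z w = 0) ∧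
      ∀ z w, ∑ i, ev (a i) z * conj (ev (b i) w) = (1 - hp z w) * u z w := by
  have hK : ∀ z w : V n, ∑ l ∈ Finset.range (d + 1), G a b l z w * hp z w ^ (d - l) = 0 := by
    refine polar (k := d + d) (l := d)
      (u := fun z w => ∑ l ∈ Finset.range (d + 1), G a b l z w * hp z w ^ (d - l)) ?_
      (fun z => diag_zero a b d ha hb hs hn z)
    refine ker_sum h1 _ _ _ _ fun l hl => ?_
    rw [Finset.mem_range] at hl
    refine (h1 n (d + (d - l)) (l + (d - l))).2.2.1 _ _ _ (by omega) (by omega) ?_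
    exact (h1 n d l).2.2.2.1 _ _ _ _ (ker_G a b d l ha) (ker_hpow h1 (d - l))
  refine ⟨fun z w => ∑ l ∈ Finset.range (d + 1), ∑ j ∈ Finset.range (d - l),
    G a b l z w * hp z w ^ j, ?_, ?_, ?_⟩
  · refine ker_sum h1 _ _ _ _ fun l hl => ?_
    refine ker_sum h1 _ _ _ _ fun j hj => ?_
    rw [Finset.mem_range] at hl hj
    refine (h1 n (d + j) (l + j)).2.2.1 _ _ _ (by omega) (by omega) ?_
    exact (h1 n d l).2.2.2.1 _ _ _ _ (ker_G a b d l ha) (ker_hpow h1 j)
  · rintro rfl z w
    simp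
  · intro z w
    rw [← sum_G a b d hb]
    have h2 : ∀ l, (1 - hp z w) * ∑ j ∈ Finset.range (d - l), G a b l z w * hp z w ^ j =
        G a b l z w - G a b l z w * hp z w ^ (d - l) := by
      intro l
      rw [← Finset.mul_sum]
      have h3 := geom_sum_mul_neg (hp z w) (d - l)
      calc (1 - hp z w) * (G a b l z w * ∑ j ∈ Finset.range (d - l), hp z w ^ j)
          = G a b l z w * ((∑ j ∈ Finset.range (d - l), hp z w ^ j) * (1 - hp z w)) := by ring
        _ = _ := by rw [h3]; ring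
    rw [Finset.mul_sum]
    simp only [h2]
    rw [Finset.sum_sub_distrib, hK, sub_zero]

end parts

/-- Reduction of the degree of a Hermitian kernel. -/
theorem ker_trunc {k D : ℕ} {u : V n → V n → ℂ} (hu : Ker k D u) (hh : Herm u) : Ker D D u := by
  obtain ⟨m, a, b, hab, hu⟩ := hu
  refine ⟨m, fun i => ∑ j ∈ Finset.range (D + 1), homogeneousComponent j (a i), b,
    fun i => ⟨?_, (hab i).2⟩, fun z w => ?_⟩
  · refine totalDegree_finsetSum_le fun j hj => (hc_deg _ _).trans ?_
    rw [Finset.mem_range] at hj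
    omega
  · obtain ⟨P, hP⟩ : ∃ P : MvPolynomial (Fin n) ℂ, P = ∑ i, C (conj (ev (b i) w)) * a i := ⟨_, rfl⟩
    obtain ⟨Q, hQ⟩ : ∃ Q : MvPolynomial (Fin n) ℂ, Q = ∑ i, C (conj (ev (a i) w)) * b i := ⟨_, rfl⟩
    have e1 : ∀ x, ev P x = u x w := by
      intro x
      rw [hP, ev_sum, hu]
      refine Finset.sum_congr rfl fun i _ => ?_
      rw [ev_Cmul]
      ring
    have e2 : ∀ x, ev Q x = u x w := by
      intro x
      rw [hh w x, hQ, ev_sum, hu, map_sum]
      refine Finset.sum_congr rfl fun i _ => ?_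
      rw [ev_Cmul, map_mul, Complex.conj_conj]
    have hPQ : P = Q := ev_ext fun x => by rw [e1, e2]
    have hdeg : P.totalDegree ≤ D := by
      rw [hPQ, hQ]
      refine totalDegree_finsetSum_le fun i _ => ?_
      refine (totalDegree_mul _ _).trans ?_
      rw [totalDegree_C, zero_add]
      exact (hab i).2
    have e3 := sum_hc P D hdeg
    rw [← e1, ← e3, hP, ev_sum]
    simp only [map_sum, homogeneousComponent_C_mul, ev_sum, ev_Cmul]
    rw [Finset.sum_comm]
    refine Finset.sum_congr rfl fun i _ => ?_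
    rw [← Finset.mul_sum]
    ring

theorem hp_conj (z w : V n) : hp w z = conj (hp z w) := by
  unfold hp
  rw [inner_conj_symm]

end

theorem t_DIVI (h1 : S_KCL) (h2 : S_PID) : S_DIVI := by
  intro n N f hn
  obtain ⟨a, ha⟩ : ∃ a : Fin (N + 1) → MvPolynomial (Fin n) ℂ, a = Fin.cons f.q f.p := ⟨_, rfl⟩
  obtain ⟨b, hb⟩ : ∃ b : Fin (N + 1) → MvPolynomial (Fin n) ℂ,
    b = Fin.cons f.q (fun i => - f.p i) := ⟨_, rfl⟩
  have hJ : ∀ z w, J (f.F z) (f.F w) = ∑ i, ev (a i) z * conj (ev (b i) w) := by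
    intro z w
    rw [Fin.sum_univ_succ, ha, hb]
    simp only [Fin.cons_zero, Fin.cons_succ]
    unfold J RSM.F hp
    rw [PiLp.inner_apply, sub_eq_add_neg, ← Finset.sum_neg_distrib]
    congr 1
    refine Finset.sum_congr rfl fun i _ => ?_
    have : ev (- f.p i) w = - ev (f.p i) w := by simp [ev]
    rw [this, map_neg]
    simp
  have hq : f.q.totalDegree ≤ f.deg := le_max_left _ _
  have hp' : ∀ i, (f.p i).totalDegree ≤ f.deg := fun i =>
    (Finset.le_sup (f := fun i => (f.p i).totalDegree) (Finset.mem_univ i)).trans (le_max_right _ _)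
  have had : ∀ i, (a i).totalDegree ≤ f.deg := by
    intro i
    rw [ha]
    refine Fin.cases ?_ (fun j => ?_) i
    · simpa using hq
    · simpa using hp' j
  have hbd : ∀ i, (b i).totalDegree ≤ f.deg := by
    intro i
    rw [hb]
    refine Fin.cases ?_ (fun j => ?_) i
    · simpa using hq
    · simpa [totalDegree_neg] using hp' j
  have hJd : ∀ z, J (f.F z) (f.F z) = ((‖ev f.q z‖ ^ 2 - ∑ i, ‖ev (f.p i) z‖ ^ 2 : ℝ) : ℂ) := by
    intro z
    have h9 : ‖(WithLp.toLp 2 fun i => ev (f.p i) z : V N)‖ ^ 2 = ∑ i, ‖ev (f.p i) z‖ ^ 2 := by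
      rw [EuclideanSpace.norm_sq_eq]
    unfold J RSM.F hp
    rw [inner_self_eq_norm_sq_to_K, Complex.mul_conj, Complex.normSq_eq_norm_sq, ← h9]
    push_cast
    rfl
  have hs : ∀ z : V n, ‖z‖ = 1 → ∑ i, ev (a i) z * conj (ev (b i) z) = 0 := by
    intro z hz
    rw [← hJ, hJd, f.sphere z hz]
    simp
  obtain ⟨u, hu1, hu0, hu2⟩ := division a b h1 f.deg had hbd hs hn
  have hHu : ∀ z w, J (f.F z) (f.F w) = (1 - hp z w) * u z w := fun z w => by rw [hJ, hu2]
  have hd : 1 ≤ f.deg := by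
    by_contra h
    have h0 := hHu 0 0
    rw [hu0 (by omega), hJd, mul_zero] at h0
    have h3 := f.maps 0 (by simp)
    have h4 : ‖ev f.q 0‖ ^ 2 - ∑ i, ‖ev (f.p i) 0‖ ^ 2 = 0 := by exact_mod_cast h0
    linarith
  refine ⟨hd, u, ?_, ?_, hHu⟩
  all_goals
    have hh : Herm u := by
      have hJc : ∀ z w, J (f.F w) (f.F z) = conj (J (f.F z) (f.F w)) := by
        intro z w
        unfold J
        rw [map_sub, map_mul, Complex.conj_conj, ← hp_conj]
        ring
      have key := h2 n (f.deg + f.deg) u (fun z w => conj (u w z))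
        ((h1 n (f.deg + f.deg) (f.deg - 1)).2.2.1 _ _ _ le_rfl (by omega) hu1)
        ((h1 n (f.deg - 1) (f.deg + f.deg)).2.2.1 _ _ _ (by omega) le_rfl (ker_conj hu1))
        (Or.inr fun z w => by
          rw [← hHu z w]
          have h5 := congrArg conj (hHu w z)
          rw [← hJc] at h5
          rw [h5, map_mul, map_sub, map_one, ← hp_conj])
      intro z w
      exact key w z
  · exact ker_trunc hu1 hh
  · exact hh

end Pool.Agent.H578.RSD
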